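import Pool.Agent.H171R2.Tri.Main

/-!
# Every finite triangle-free induced subgraph of the triangular lattice has fractional chromatic
number at most `9/4`
-/

namespace Pool.Agent.Results.MP_40ab69_co.FracNineFourths

open Pool.Agent.H171R2.Tri

/-- For every finite set `V` of points of the triangular lattice inducing a triangle-free graph
there are non-negative weights `y S` on the independent sets `S ⊆ V`, of total weight at most
`9/4`, such that the sets containing `v` have total weight at least `1` for every `v ∈ V`. -/
theorem result (V : Finset (ℤ × ℤ))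
    (hV : (triLattice.induce (V : Set (ℤ × ℤ))).CliqueFree 3) :
    ∃ y : Finset (ℤ × ℤ) → ℝ, (∀ S, 0 ≤ y S) ∧
      (∀ S, y S ≠ 0 → S ⊆ V ∧ triLattice.IsIndepSet (S : Set (ℤ × ℤ))) ∧
      (∀ v ∈ V, 1 ≤ ∑ S ∈ V.powerset with v ∈ S, y S) ∧
      ∑ S ∈ V.powerset, y S ≤ 9 / 4 :=
  frac_bound oct_main V hV

end Pool.Agent.Results.MP_40ab69_co.FracNineFourths
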